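import Pool.Agent.Q278.BlkCyc
import Pool.Agent.Q278.Blk3
import Pool.Agent.Q278.Watson

set_option autoImplicit false

/-! A q-analogue of Liu's supercongruence for `n ≡ 1 (mod 4)`. -/

namespace Pool.Agent.Results.MP_c25fd9_nt.Full

open Finset Polynomial Q278.Loc Q278.Cyc Q278.Unit Q278.Smooth Q278.Blk

/-- `(a; Q)_k`. -/
noncomputable def poch (a Q : RatFunc ℚ) (k : ℕ) : RatFunc ℚ := ∏ j ∈ range k, (1 - a * Q ^ j)

/-- The summand `a_k(q)`. -/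
noncomputable def a (k : ℕ) : RatFunc ℚ :=
  (poch RatFunc.X (RatFunc.X ^ 2) k ^ 2 * poch (RatFunc.X ^ 2) (RatFunc.X ^ 4) k *
    RatFunc.X ^ (2 * k)) /
  (poch (RatFunc.X ^ 2) (RatFunc.X ^ 2) k ^ 2 * poch (RatFunc.X ^ 4) (RatFunc.X ^ 4) k)

/-- `C_n(q)` for odd `n`. -/
noncomputable def C (n : ℕ) : RatFunc ℚ := (∑ i ∈ range n, RatFunc.X ^ i) *
  poch (RatFunc.X ^ 3) (RatFunc.X ^ 4) ((n - 1) / 2) /
    poch (RatFunc.X ^ 5) (RatFunc.X ^ 4) ((n - 1) / 2)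

/-- The summand `(1/2)_k³ / k!³` of `T_m`. -/
def cc (k : ℕ) : ℚ := (∏ i ∈ range k, ((1 : ℚ) / 2 + i)) ^ 3 / (k.factorial : ℚ) ^ 3

theorem cc_eq (k : ℕ) : ((cc k : ℚ) : RatFunc ℚ) = (c (RatFunc ℚ) k) ^ 3 := by
  have h : ∀ k, (∏ i ∈ range k, ((1 : ℚ) / 2 + i)) / (k.factorial : ℚ) =
      ∏ i ∈ range k, (((2 * i + 1 : ℕ) : ℚ) / ((2 * i + 2 : ℕ) : ℚ)) := by
    intro k
    induction k with
    | zero => simp
    | succ k ih =>
      rw [prod_range_succ, prod_range_succ, ← ih, Nat.factorial_succ]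
      have : (k.factorial : ℚ) ≠ 0 := by exact_mod_cast k.factorial_ne_zero
      push_cast
      field_simp
      ring
  unfold cc c
  rw [← div_pow, h]
  push_cast
  rfl

theorem a_eq (k : ℕ) : a k = q ^ (2 * k) * (r q k ^ 2 * r (q ^ 2) k) := by
  unfold a poch r
  rw [prod_div_distrib, prod_div_distrib]
  have e1 : ∏ j ∈ range k, (1 - RatFunc.X * (RatFunc.X ^ 2) ^ j) =
      ∏ l ∈ range k, (1 - q ^ (2 * l + 1)) := prod_congr rfl (fun l _ => by ring)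
  have e2 : ∏ j ∈ range k, (1 - RatFunc.X ^ 2 * (RatFunc.X ^ 2) ^ j) =
      ∏ l ∈ range k, (1 - q ^ (2 * l + 2)) := prod_congr rfl (fun l _ => by ring)
  have e3 : ∏ j ∈ range k, (1 - RatFunc.X ^ 2 * (RatFunc.X ^ 4) ^ j) =
      ∏ l ∈ range k, (1 - (q ^ 2) ^ (2 * l + 1)) := prod_congr rfl (fun l _ => by ring)
  have e4 : ∏ j ∈ range k, (1 - RatFunc.X ^ 4 * (RatFunc.X ^ 4) ^ j) =
      ∏ l ∈ range k, (1 - (q ^ 2) ^ (2 * l + 2)) := prod_congr rfl (fun l _ => by ring)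
  rw [e1, e2, e3, e4]
  ring

section loc

variable {n N : ℕ} {η : ℂ}

/-- the terms, with parameter `s` -/
noncomputable def f (n i : ℕ) (s : ℤ) : RatFunc ℚ :=
  q ^ (2 * i) * (rs n q s i ^ 2 * rs n (q ^ 2) s i)

variable (hη : IsPrimitiveRoot η n) (hn : n = 2 * N + 1)
include hη hn

theorem H1 : H (Reg η) (Φ n) n N q := by
  have := cycH hη hn (d := 1) (Nat.coprime_one_right n) one_pos
  rwa [pow_one] at this

theorem H2 : H (Reg η) (Φ n) n N (q ^ 2) := cycH hη hn (by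
  rw [Nat.coprime_two_right]; exact ⟨N, hn⟩) two_pos

theorem sm_f {i : ℕ} (hi : i ≤ N) : Sm (Reg η) (Φ n) 2 0 (f n i) := by
  have h1 := H1 hη hn
  have h2 := H2 hη hn
  unfold f
  have h3 : Sm (Reg η) (Φ n) 2 0 (fun s : ℤ => q ^ (2 * i)) :=
    Sm.const h1.hπ (of_O (q_pow_mem η _))
  have h4 := Sm.mul h1.hπ h3 (Sm.mul h1.hπ (Sm.pow h1.hπ (h1.sm_rs 2 hi) 2) (h2.sm_rs 2 hi))
  simpa using h4

/-- the blocks -/
theorem a_block (j i : ℕ) : a (n * j + i) =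
    ((q ^ n) ^ (2 * j) * (r q (n * j) ^ 2 * r (q ^ 2) (n * j))) * f n i (2 * j) := by
  rw [a_eq]
  unfold f
  rw [r_split (n := n), r_split (n := n)]
  have e3 : q ^ (2 * (n * j + i)) = (q ^ n) ^ (2 * j) * q ^ (2 * i) := by
    rw [← pow_mul, ← pow_add]; congr 1; ring
  rw [e3]
  ring

/-- the reversal -/
theorem F_rev : ∑ i ∈ range (N + 1), f n i (-1) =
    (q ^ (2 * N) * (rs n q (-1) N ^ 2 * rs n (q ^ 2) (-1) N)) * ∑ i ∈ range (N + 1), f n i 0 := by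
  have h1 := H1 hη hn
  have h2 := H2 hη hn
  rw [← sum_range_reflect, mul_sum]
  apply sum_congr rfl
  intro i hi
  have hi' := mem_range.1 hi
  rw [show N + 1 - 1 - i = N - i by omega]
  unfold f
  rw [h1.rev i (by omega), h2.rev i (by omega), rs_zero, rs_zero]
  have e : q ^ (2 * (N - i)) * q ^ (2 * i) = q ^ (2 * N) := by
    rw [← pow_add]; congr 1; omega
  rw [← e, ← pow_mul]
  ring

/-! ### The first block -/

/-- the product with the parameter -/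
noncomputable def T (n k : ℕ) : RatFunc ℚ := ∏ l ∈ range k,
    ((1 - q ^ (2 * l + 1) * q ^ n) * (1 - q ^ (2 * l + 1) * (q ^ n)⁻¹) /
      ((1 - q ^ (2 * l + 2)) * (1 - q ^ (2 * l + 2))))

omit hη in
theorem W_eq : ∑ k ∈ range (N + 1), q ^ (2 * k) * (T n k * r (q ^ 2) k) =
    Q278.Watson.W (q ^ 2) N := by
  have hq0 : q ≠ 0 := q_ne
  unfold Q278.Watson.W Q278.Watson.t r T
  apply sum_congr rfl
  intro k _
  rw [pow_mul q 2 k, ← prod_mul_distrib]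
  have e0 : (q ^ 2) ^ k = ∏ _l ∈ range k, (q ^ 2) := by rw [prod_const, card_range]
  rw [e0, ← prod_mul_distrib]
  apply prod_congr rfl
  intro l _
  unfold Q278.Watson.ρ Q278.Watson.E
  have e1 : (q ^ 2) ^ l / (q ^ 2) ^ N = q ^ (2 * l + 1) * (q ^ n)⁻¹ := by
    rw [hn, pow_succ q (2 * N), pow_succ q (2 * l), ← pow_mul, ← pow_mul]
    field_simp
  have e2 : (q ^ 2) ^ N * (q ^ 2) ^ (l + 1) = q ^ (2 * l + 1) * q ^ n := by
    rw [hn, ← pow_mul, ← pow_mul, ← pow_add, ← pow_add]; congr 1; ring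
  have e3 : (q ^ 2) ^ (l + 1) = q ^ (2 * l + 2) := by ring
  rw [e1, e2, e3]
  generalize 1 - q ^ (2 * l + 2) = x
  generalize (1 - q ^ (2 * l + 1) * q ^ n) = y
  generalize (1 - q ^ (2 * l + 1) * (q ^ n)⁻¹) = z
  generalize 1 - (q ^ 2) ^ (2 * l + 1) = v
  generalize 1 - (q ^ 2) ^ (2 * l + 2) = w
  ring

theorem cg_T {k : ℕ} (hk : k ≤ N) : Cg (Reg η) (Φ n) 2 (r q k ^ 2) (T n k) := by
  have h := H1 hη hn
  unfold r T
  rw [← prod_pow]
  apply Cg.prod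
  intro l hl
  have hl' := mem_range.1 hl
  obtain ⟨n1, n2⟩ := not_dvd_lt hn (show l < N by omega)
  have h1 := h.pair_y n1
  have h2 := Cg.refl (k := 2) (π := Φ n) ((h.hu _ n2).mul (h.hu _ n2))
  have h3 := h1.mul h2.inv
  rw [← div_eq_mul_inv, ← div_eq_mul_inv] at h3
  convert h3 using 1
  rw [div_pow]
  congr 1 <;> ring

/-- the closed form -/
theorem C_cg {b : ℕ} (hb : N = 2 * b) : Cg (Reg η) (Φ n) 2 (C n)
    ((q ^ 2) ^ b * ∏ i ∈ range b, ((1 - (q ^ 2) ^ (2 * i + 1)) / (1 - (q ^ 2) ^ (2 * i + 2))) ^ 2) := by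
  have h := H1 hη hn
  have hq0 : q ≠ 0 := q_ne
  have h1q : (1 : RatFunc ℚ) - q ≠ 0 := by
    have := one_sub_q_ne (show 0 < 1 by norm_num)
    rwa [pow_one] at this
  have e1 : C n = (∏ j ∈ range b, ((1 - q ^ (4 * j + 3)) * (1 - q ^ (4 * (2 * b - 1 - j) + 3)))) *
      (∏ j ∈ range b, ((1 - q ^ (4 * j + 1)) * (1 - q ^ (4 * (2 * b - j) + 1))))⁻¹ := by
    unfold C poch
    rw [show (n - 1) / 2 = N by omega, hb]
    have g1 : ∏ j ∈ range (2 * b), (1 - RatFunc.X ^ 3 * (RatFunc.X ^ 4) ^ j) =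
        ∏ j ∈ range (2 * b), (1 - q ^ (4 * j + 3)) := prod_congr rfl (fun j _ => by ring)
    have g2 : (1 - q) * ∏ j ∈ range (2 * b), (1 - RatFunc.X ^ 5 * (RatFunc.X ^ 4) ^ j) =
        ∏ j ∈ range (2 * b + 1), (1 - q ^ (4 * j + 1)) := by
      rw [prod_range_succ', mul_comm]
      congr 1
      · exact prod_congr rfl (fun j _ => by ring)
      · ring
    have g3 := geom_sum_mul q n
    have g4 : ∑ i ∈ range n, (RatFunc.X : RatFunc ℚ) ^ i = (1 - q ^ n) / (1 - q) := by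
      rw [eq_div_iff h1q]; linear_combination -g3
    have g5 : ∏ j ∈ range (2 * b), (1 - RatFunc.X ^ 5 * (RatFunc.X ^ 4) ^ j) =
        (1 - q ^ n) * (∏ j ∈ range b, ((1 - q ^ (4 * j + 1)) * (1 - q ^ (4 * (2 * b - j) + 1)))) /
          (1 - q) := by
      rw [eq_div_iff h1q, mul_comm, g2, prod_odd]
      congr 2
      rw [hn, hb]; congr 1; ring
    rw [g1, g4, g5, prod_even]
    have hn0 := one_sub_q_ne (show 0 < n by omega)
    generalize 1 - q ^ n = x at *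
    generalize 1 - q = y at *
    by_cases hz : (∏ j ∈ range b, ((1 - q ^ (4 * j + 1)) * (1 - q ^ (4 * (2 * b - j) + 1)))) = 0
    · rw [hz]; simp
    · generalize (∏ j ∈ range b, ((1 - q ^ (4 * j + 1)) * (1 - q ^ (4 * (2 * b - j) + 1)))) = z at *
      field_simp
  have key : ∀ i i' : ℕ, ¬ n ∣ i → i + i' = 2 * n → i < n →
      Cg (Reg η) (Φ n) 2 ((1 - q ^ i) * (1 - q ^ i'))
        (q ^ n * (-(1 - (q ^ n)⁻¹ * q ^ i) ^ 2 / ((q ^ n)⁻¹ * q ^ i))) := by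
    intro i i' hi hii hin
    have hi' : ¬ n ∣ i' := by
      intro hd
      have h2 : n ∣ 2 * n := Dvd.intro_left 2 rfl
      rw [← hii] at h2
      exact hi ((Nat.dvd_add_left hd).1 h2)
    have hw0 := h.Uw.2.2
    have hqi : q ^ i ≠ 0 := pow_ne_zero _ hq0
    have f1 : q ^ n * ((q ^ n)⁻¹ * q ^ i) = q ^ i := by field_simp
    have f2 : q ^ n / ((q ^ n)⁻¹ * q ^ i) = q ^ i' := by
      rw [div_eq_iff (mul_ne_zero (inv_ne_zero hw0) hqi)]
      have : q ^ n * q ^ n = q ^ i' * q ^ i := by rw [← pow_add, ← pow_add]; congr 1; omega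
      field_simp
      linear_combination this
    have f3 := pair (O := Reg η) (π := Φ n) (A := q ^ n) (y := (q ^ n)⁻¹ * q ^ i) h.Uw
      (by rw [f1]; exact h.hu i hi) (by rw [f2]; exact h.hu i' hi')
      (by have := h.Us (-1) hi; rwa [zpow_neg_one] at this)
      (h.Uw.inv.mul (h.hp.pow i)) h.hw
    rw [f1, f2] at f3
    exact f3
  have k1 : ∀ j ∈ range b, Cg (Reg η) (Φ n) 2
      ((1 - q ^ (4 * j + 3)) * (1 - q ^ (4 * (2 * b - 1 - j) + 3)))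
      (q ^ n * (-(1 - (q ^ n)⁻¹ * q ^ (4 * j + 3)) ^ 2 / ((q ^ n)⁻¹ * q ^ (4 * j + 3)))) := by
    intro j hj
    have := mem_range.1 hj
    exact key _ _ (Nat.not_dvd_of_pos_of_lt (by omega) (by omega)) (by omega) (by omega)
  have k2 : ∀ j ∈ range b, Cg (Reg η) (Φ n) 2
      ((1 - q ^ (4 * j + 1)) * (1 - q ^ (4 * (2 * b - j) + 1)))
      (q ^ n * (-(1 - (q ^ n)⁻¹ * q ^ (4 * j + 1)) ^ 2 / ((q ^ n)⁻¹ * q ^ (4 * j + 1)))) := by
    intro j hj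
    have := mem_range.1 hj
    exact key _ _ (Nat.not_dvd_of_pos_of_lt (by omega) (by omega)) (by omega) (by omega)
  have k3 := (Cg.prod k1).mul (Cg.prod k2).inv
  rw [← e1] at k3
  convert k3 using 1
  have e0 : (q ^ 2) ^ b = ∏ _l ∈ range b, (q ^ 2) := by rw [prod_const, card_range]
  rw [e0, ← prod_inv_distrib, ← prod_mul_distrib, ← prod_mul_distrib, ← prod_range_reflect]
  apply prod_congr rfl
  intro j hj
  have hj' := mem_range.1 hj
  have f1 : (q ^ n)⁻¹ * q ^ (4 * j + 3) = ((q ^ 2) ^ (2 * (b - 1 - j) + 1))⁻¹ := by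
    have : q ^ n = q ^ (4 * j + 3) * (q ^ 2) ^ (2 * (b - 1 - j) + 1) := by
      rw [← pow_mul, ← pow_add]; congr 1; omega
    rw [this]; field_simp
  have f2 : (q ^ n)⁻¹ * q ^ (4 * j + 1) = ((q ^ 2) ^ (2 * (b - 1 - j) + 2))⁻¹ := by
    have : q ^ n = q ^ (4 * j + 1) * (q ^ 2) ^ (2 * (b - 1 - j) + 2) := by
      rw [← pow_mul, ← pow_add]; congr 1; omega
    rw [this]; field_simp
  rw [f1, f2]
  have hw0 := h.Uw.2.2
  have u1 : 1 - (q ^ 2) ^ (2 * (b - 1 - j) + 2) ≠ 0 := by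
    rw [← pow_mul]; exact one_sub_q_ne (by omega)
  have u2 : (q ^ 2) ^ (2 * (b - 1 - j) + 2) = (q ^ 2) ^ (2 * (b - 1 - j) + 1) * q ^ 2 := by
    rw [← pow_succ]
  have u3 : (q ^ 2) ^ (2 * (b - 1 - j) + 1) ≠ 0 := pow_ne_zero _ (pow_ne_zero _ hq0)
  have f3 : 1 - ((q ^ 2) ^ (2 * (b - 1 - j) + 1))⁻¹ =
      -((q ^ 2) ^ (2 * (b - 1 - j) + 1))⁻¹ * (1 - (q ^ 2) ^ (2 * (b - 1 - j) + 1)) := by
    field_simp; ring
  have f4 : 1 - ((q ^ 2) ^ (2 * (b - 1 - j) + 2))⁻¹ =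
      -((q ^ 2) ^ (2 * (b - 1 - j) + 1) * q ^ 2)⁻¹ * (1 - (q ^ 2) ^ (2 * (b - 1 - j) + 2)) := by
    rw [← u2]
    have : (q ^ 2) ^ (2 * (b - 1 - j) + 2) ≠ 0 := pow_ne_zero _ (pow_ne_zero _ hq0)
    generalize (q ^ 2) ^ (2 * (b - 1 - j) + 2) = x at *
    field_simp; ring
  rw [f3, f4, u2]
  rw [u2] at u1
  generalize (1 - (q ^ 2) ^ (2 * (b - 1 - j) + 1) * q ^ 2) = x at *
  generalize (1 - (q ^ 2) ^ (2 * (b - 1 - j) + 1)) = y at *
  generalize (q ^ 2) ^ (2 * (b - 1 - j) + 1) = z at *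
  generalize q ^ n = u at *
  field_simp

theorem F_zero {b : ℕ} (hb : N = 2 * b) :
    ∑ i ∈ range (N + 1), f n i 0 - C n ∈ I (Reg η) (Φ n) 2 := by
  have h := H1 hη hn
  have h2 := H2 hη hn
  have h1 : ∑ k ∈ range (N + 1), (q ^ (2 * k) * r (q ^ 2) k) *
      (r q k ^ 2 - T n k) ∈ I (Reg η) (Φ n) 2 := by
    apply AddSubgroup.sum_mem
    intro k hk
    have hk' := mem_range.1 hk
    have h4 : r (q ^ 2) k ∈ Reg η := by
      rw [← rs_zero (n := n)]; exact (h2.U_rs 0 (by omega)).1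
    exact mul_O ((Reg η).mul_mem (q_pow_mem η _) h4) (cg_T hη hn (by omega)).2.2
  have hC := (C_cg hη hn hb).symm.2.2
  have hW := Q278.Watson.W_even (q ^ 2) (pow_ne_zero _ q_ne)
    (fun j hj => by rw [← pow_mul]; exact one_sub_q_ne (by omega)) b
  rw [← hW, ← hb, ← W_eq hn] at hC
  have h3 := (I (Reg η) (Φ n) 2).add_mem h1 hC
  convert h3 using 1
  rw [← add_sub_assoc, ← sum_add_distrib]
  congr 1
  apply sum_congr rfl
  intro k _
  unfold f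
  rw [rs_zero, rs_zero]
  ring

/-! ### The conclusion -/

theorem local_main {b : ℕ} (hb : N = 2 * b) (m : ℕ) : ∑ k ∈ range (n * m), a k -
    C n * ∑ k ∈ range m, ((cc k : ℚ) : RatFunc ℚ) ∈ I (Reg η) (Φ n) 2 := by
  have h1 := H1 hη hn
  have h2 := H2 hη hn
  have hq0 : q ≠ 0 := q_ne
  have hκ : Cg (Reg η) (Φ n) 1
      (q ^ (2 * N) * (rs n q (-1) N ^ 2 * rs n (q ^ 2) (-1) N)) 1 := by
    have a1 : rs n q (-1) N = (q ^ N)⁻¹ * (r q N)⁻¹ := by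
      rw [← mul_inv]; exact eq_inv_of_mul_eq_one_left h1.rev_N
    have a2 : rs n (q ^ 2) (-1) N = ((q ^ 2) ^ N)⁻¹ * (r (q ^ 2) N)⁻¹ := by
      rw [← mul_inv]; exact eq_inv_of_mul_eq_one_left h2.rev_N
    rw [a1, a2]
    have c1 := (Cg.refl (k := 1) (π := Φ n) (h1.hp.pow N).inv).mul h1.r_N.inv
    have c2 := (Cg.refl (k := 1) (π := Φ n) (h2.hp.pow N).inv).mul h2.r_N.inv
    have c3 := (Cg.refl (k := 1) (π := Φ n) (h1.hp.pow (2 * N))).mul ((c1.pow 2).mul c2)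
    refine c3.trans ?_
    have h5 : ((-1 : RatFunc ℚ)) ^ N = 1 := by rw [hb, pow_mul]; norm_num
    have e : q ^ (2 * N) * (((q ^ N)⁻¹ * ((-1) ^ N * (q ^ (N * (N + 1)))⁻¹)⁻¹) ^ 2 *
        (((q ^ 2) ^ N)⁻¹ * ((-1) ^ N * ((q ^ 2) ^ (N * (N + 1)))⁻¹)⁻¹)) = (q ^ n) ^ (2 * N) := by
      have h6 : q ^ (2 * N) * (q ^ (N * (N + 1))) ^ 2 * (q ^ 2) ^ (N * (N + 1)) =
          (q ^ n) ^ (2 * N) * ((q ^ N) ^ 2 * (q ^ 2) ^ N) := by
        simp only [← pow_mul, ← pow_add]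
        congr 1
        rw [hn]; ring
      rw [h5, one_mul, inv_inv, one_mul, inv_inv]
      have b1 : q ^ N ≠ 0 := pow_ne_zero _ hq0
      have b2 : (q ^ 2) ^ N ≠ 0 := pow_ne_zero _ (pow_ne_zero _ hq0)
      generalize q ^ (N * (N + 1)) = x at *
      generalize (q ^ 2) ^ (N * (N + 1)) = y at *
      generalize q ^ (2 * N) = z at *
      generalize (q ^ 2) ^ N = v at *
      generalize q ^ N = t at *
      generalize (q ^ n) ^ (2 * N) = w at *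
      field_simp
      linear_combination h6
    rw [e]
    refine ⟨h1.Uw.pow _, U.one, ?_⟩
    rw [← neg_sub]
    exact (I (Reg η) (Φ n) 1).neg_mem (h1.wn_mem _)
  refine ((h1.assemble a (fun j => (q ^ n) ^ (2 * j) * (r q (n * j) ^ 2 * r (q ^ 2) (n * j)))
    (f n) (fun j i _ => a_block hη hn j i) ?_ (fun i hi => sm_f hη hn hi) _ hκ
    (F_rev hη hn) (C n) (F_zero hη hn hb) (fun k => ((cc k : ℚ) : RatFunc ℚ)) ?_ m))
  · intro j i hi hin
    rw [a_block hη hn j i]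
    have hA : (q ^ n) ^ (2 * j) * (r q (n * j) ^ 2 * r (q ^ 2) (n * j)) ∈ Reg η :=
      ((h1.Uw.pow _).mul (((h1.r_block j).1.pow 2).mul (h2.r_block j).1)).1
    refine mul_O hA ?_
    unfold f
    have t1 := pow_I (h1.tail j hi hin) 2
    have t2 := h2.tail j hi hin
    have t3 := mul_I t1 t2
    exact mul_O (q_pow_mem η _) (mono h1.hπ (by norm_num) t3)
  · intro j
    rw [cc_eq]
    set P1 := P n N q with hP1
    set P2 := P n N (q ^ 2) with hP2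
    have hh1 : Cg (Reg η) (Φ n) 2 (hh n q ^ 2) (q ^ n) := by
      refine ⟨h1.U_hh.pow 2, h1.Uw, ?_⟩
      have e : hh n q ^ 2 - q ^ n = ((2 : RatFunc ℚ)⁻¹) ^ 2 * (1 - q ^ n) ^ 2 := by
        unfold hh
        generalize q ^ n = u
        have : (2 : RatFunc ℚ) ≠ 0 := by norm_num
        field_simp
        ring
      rw [e]
      exact mul_O ((Reg η).pow_mem h1.two.2.1 2) (pow_I h1.hw 2)
    have hh2 : Cg (Reg η) (Φ n) 2 (hh n (q ^ 2)) (q ^ n) := by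
      refine ⟨h2.U_hh, h1.Uw, ?_⟩
      have e : hh n (q ^ 2) - q ^ n = (2 : RatFunc ℚ)⁻¹ * (1 - q ^ n) ^ 2 := by
        unfold hh
        rw [← pow_mul, mul_comm 2 n, pow_mul]
        field_simp
        ring
      rw [e]
      exact mul_O h1.two.2.1 (pow_I h1.hw 2)
    have r1 := h1.r_block j
    have r2 := h2.r_block j
    have s1 := (Cg.refl (k := 2) (π := Φ n) (h1.Uw.pow (2 * j))).mul ((r1.pow 2).mul r2)
    have e1 : (q ^ n) ^ (2 * j) * ((c (RatFunc ℚ) j * ((hh n q)⁻¹ * P n N q) ^ j) ^ 2 *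
        (c (RatFunc ℚ) j * ((hh n (q ^ 2))⁻¹ * P n N (q ^ 2)) ^ j)) =
        c (RatFunc ℚ) j ^ 3 * (((q ^ n) ^ 2 * ((hh n q ^ 2)⁻¹ * (hh n (q ^ 2))⁻¹) *
          (P1 ^ 2 * P2))) ^ j := by
      rw [← hP1, ← hP2]
      simp only [mul_pow, ← pow_mul, inv_pow]
      ring
    rw [e1] at s1
    refine s1.trans ?_
    have s2 := (Cg.refl (k := 2) (π := Φ n) ((h1.U_c j).pow 3)).mul
      ((((Cg.refl (k := 2) (π := Φ n) (h1.Uw.pow 2)).mul (hh1.inv.mul hh2.inv)).mul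
        (Cg.refl (k := 2) (π := Φ n) ((h1.U_P.pow 2).mul h2.U_P))).pow j)
    have e2 : c (RatFunc ℚ) j ^ 3 * ((q ^ n) ^ 2 * ((q ^ n)⁻¹ * (q ^ n)⁻¹) *
        (P n N q ^ 2 * P n N (q ^ 2))) ^ j = c (RatFunc ℚ) j ^ 3 *
        (q ^ (2 * N) * (rs n q (-1) N ^ 2 * rs n (q ^ 2) (-1) N)) ^ (2 * j) := by
      rw [pow_mul _ 2 j]
      congr 2
      unfold P
      have hw0 := h1.Uw.2.2
      have e3 : (q ^ 2) ^ N = q ^ (2 * N) := by rw [← pow_mul]
      have e4 : (q ^ N) ^ 2 = q ^ (2 * N) := by rw [← pow_mul, mul_comm]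
      rw [e3, mul_pow (q ^ N), e4]
      generalize rs n q (-1) N = x
      generalize rs n (q ^ 2) (-1) N = y
      generalize q ^ (2 * N) = z
      generalize q ^ n = u at *
      field_simp
    rw [e2] at s2
    exact s2

end loc

theorem result : ∀ m n : ℕ, 1 ≤ m → 1 < n → n % 4 = 1 →
    cyclotomic n ℚ ^ 2 ∣ RatFunc.num (∑ k ∈ range (m * n), a k - C n * ∑ k ∈ range m,
      ((cc k : ℚ) : RatFunc ℚ)) ∧
    IsCoprime (RatFunc.denom (∑ k ∈ range (m * n), a k - C n * ∑ k ∈ range m,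
      ((cc k : ℚ) : RatFunc ℚ))) (cyclotomic n ℚ ^ 2) := by
  intro m n _ hn1 hn4
  have hη := Complex.isPrimitiveRoot_exp n (by omega : n ≠ 0)
  have h1 := local_main hη (show n = 2 * ((n - 1) / 2) + 1 by omega)
    (show (n - 1) / 2 = 2 * ((n - 1) / 4) by omega) m
  rw [mul_comm n m] at h1
  obtain ⟨h2, h3⟩ := num_dvd (by omega) hη h1
  exact ⟨h2, h3.pow_right⟩

end Pool.Agent.Results.MP_c25fd9_nt.Full
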